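import Pool.Agent.H52.VTD.Final

/-!
# Order, degree and girth of vertex-transitive digraphs: everything below the bound

The definitions `Arcs`, `VertexTransitive`, `outdeg`, `HasCycle`, `IsGirth`, `circ`, `lexProd`,
`IterLex` and `InL` (the class `L`) are those of the library module
`Pool.Graph.R_seed8.Results.MP_81f9fb_co.GirthBound`, which proves part (1) for `g > 3`.
New definitions (files `Pool.Agent.H52.VTD.Below` and `Girth`):
* `Chain g [e_1, ..., e_(k-1)] e s m V X`: `X` is `X_1[X_2[...[X_k[E]]...]]`, where `X_i`, `i < k`,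
  is `circ (e_i (g-1) + 1) e_i`, `X_k` is `circ (e (g-1) + 1 + s) e`, all of `e_i`, `e`, `m` are
  positive and `E` is the digraph with `m` vertices and no arc;
* `Iso X Y`: `X` and `Y` are isomorphic;
* `IsoChain g l e s m X`: `X` is isomorphic to the digraph `Y` with `Chain g l e s m W Y`;
* `AbelianCayley X`: `X` is isomorphic to a Cayley digraph of an abelian group.
-/

namespace Pool.Agent.Results.MP_81f9fb_co.BelowTheBound

open Pool.Agent.Results.MP_81f9fb_co.GirthBound Pool.Agent.H52.VTD

/-- (1) A finite vertex-transitive digraph outside `L`, of out-degree `d` and girth `g`, has at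
least `(d+1)(g-1)-1` vertices. (2) For `g ≥ 4` this is attained outside `L` if and only if `d ≥ 2`.
(3) For `g ≥ 4` the vertex-transitive digraphs of girth `g` with fewer than `(d+1)(g-1)-1` vertices
are exactly the digraphs given by `(l, e, s, m)` with `(1+s)m ≤ g-3`, and `l` nonempty or
`1+s ≤ e`. (4) Distinct parameters `(l, e, s, m)` give digraphs that are not isomorphic; each of
these digraphs is in `L` and is a Cayley digraph of an abelian group, and its number of vertices is
`d(g-1) + (1+s)m`, the product of the numbers of vertices of its factors. -/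
theorem result :
    (∀ (V : Type) [Fintype V] (X : Arcs V) (d g : ℕ), VertexTransitive X →
      (∀ v, outdeg X v = d) → IsGirth X g → ¬ InL X → (d + 1) * (g - 1) - 1 ≤ Fintype.card V) ∧
    (∀ d g : ℕ, 4 ≤ g →
      ((∃ (V : Type) (_ : Fintype V) (X : Arcs V), VertexTransitive X ∧ (∀ v, outdeg X v = d) ∧
        IsGirth X g ∧ ¬ InL X ∧ Fintype.card V = (d + 1) * (g - 1) - 1) ↔ 2 ≤ d)) ∧
    (∀ (V : Type) [Fintype V] (X : Arcs V) (g : ℕ), 4 ≤ g →
      ((VertexTransitive X ∧ IsGirth X g ∧
        ∃ d, (∀ v, outdeg X v = d) ∧ Fintype.card V < (d + 1) * (g - 1) - 1) ↔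
      ∃ (l : List ℕ) (e s m : ℕ), (1 + s) * m ≤ g - 3 ∧ (l ≠ [] ∨ 1 + s ≤ e) ∧
        IsoChain g l e s m X)) ∧
    (∀ (V : Type) [Fintype V] (X : Arcs V) (g : ℕ) (l : List ℕ) (e s m : ℕ), 4 ≤ g →
      IsoChain g l e s m X →
        (∀ (l' : List ℕ) (e' s' m' : ℕ), IsoChain g l' e' s' m' X →
          l = l' ∧ e = e' ∧ s = s' ∧ m = m') ∧
        InL X ∧ AbelianCayley X ∧
        (∀ d, (∀ v, outdeg X v = d) → Fintype.card V = d * (g - 1) + (1 + s) * m) ∧
        Fintype.card V =
          (l.map fun a => a * (g - 1) + 1).prod * ((e * (g - 1) + 1 + s) * m)) := by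
  refine ⟨?_, ?_, ?_, ?_⟩
  · intro V _ X d g hX hd hg hL
    exact bound_all X hX hd hg hL
  · intro d g hg
    exact attained hg
  · intro V _ X g hg
    exact below_girth X hg
  · intro V _ X g l e s m hg h
    exact ⟨fun l' e' s' m' h' => isoChain_unique hg h h', isoChain_InL (by omega) h,
      isoChain_cayley h, fun d hd => chain_order X (by omega) h hd, isoChain_card h⟩

end Pool.Agent.Results.MP_81f9fb_co.BelowTheBound
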